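import Mathlib

set_option autoImplicit false

namespace Pool.Agent.Results.MP_26c4ab_lc.No

open Filter Set

/-- multiplicative finite embeddability of sets -/
def FeSet (A B : Set ℕ+) : Prop := ∀ F : Finset ℕ+, ↑F ⊆ A → ∃ k : ℕ+, ∀ x ∈ F, k * x ∈ B

/-- multiplicative finite embeddability of ultrafilters -/
def Fe (F G : Ultrafilter ℕ+) : Prop := ∀ B ∈ G, ∃ A ∈ F, FeSet A B

lemma uniq {a b c d : ℕ} (h1 : a < b) (h2 : c < d) (h : 2 ^ b + 2 ^ c = 2 ^ d + 2 ^ a) : a = c := by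
  wlog hac : a < c generalizing a b c d
  · exact (not_lt.1 hac).eq_or_lt.elim Eq.symm fun h3 => (this h2 h1 h.symm h3).symm
  have e1 : 2 ^ (a + 1) ∣ 2 ^ b + 2 ^ c := dvd_add (pow_dvd_pow _ h1) (pow_dvd_pow _ hac)
  rw [h] at e1
  have := Nat.le_of_dvd (by positivity) ((Nat.dvd_add_right (pow_dvd_pow _ (by omega))).1 e1)
  have := (Nat.pow_le_pow_iff_right (by norm_num)).1 this
  omega

lemma pw {m n : ℕ} (h : (2 : ℕ+) ^ m = 2 ^ n) : m = n :=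
  Nat.pow_right_injective (le_refl 2) (show 2 ^ m = 2 ^ n by simpa using congrArg PNat.val h)

lemma pair {x y k l : ℕ+} {a b c d i : ℕ} (hxy : x < y) (h1 : k * x = 2 ^ 2 ^ a)
    (h2 : k * y = 2 ^ 2 ^ b) (h3 : 2 ^ i * l * x = 2 ^ 2 ^ c) (h4 : 2 ^ i * l * y = 2 ^ 2 ^ d) :
    k = 2 ^ i * l := by
  have lt : ∀ {k : ℕ+} {a b : ℕ}, k * x = 2 ^ 2 ^ a → k * y = 2 ^ 2 ^ b → a < b := by
    intro k a b h1 h2
    have : (2 : ℕ+) ^ 2 ^ a < 2 ^ 2 ^ b := h1 ▸ h2 ▸ mul_lt_mul_right hxy k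
    have : (2 : ℕ) ^ 2 ^ a < 2 ^ 2 ^ b := by exact_mod_cast this
    rwa [Nat.pow_lt_pow_iff_right (by norm_num), Nat.pow_lt_pow_iff_right (by norm_num)] at this
  have : a = c := uniq (lt h1 h2) (lt h3 h4) (pw (by
    rw [pow_add, pow_add, ← h1, ← h2, ← h3, ← h4]; ac_rfl))
  exact mul_right_cancel (h1.trans (this ▸ h3.symm))

noncomputable def ch (i : ℕ) : Ultrafilter ℕ+ := (hyperfilter ℕ).map fun n => 2 ^ (2 ^ n - i)

lemma big (i : ℕ) : ∀ᶠ n in (hyperfilter ℕ : Filter ℕ), i ≤ 2 ^ n :=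
  Nat.hyperfilter_le_atTop ((eventually_ge_atTop i).mono fun n hn => hn.trans n.lt_two_pow_self.le)

theorem result : ∃ F : ℕ → Ultrafilter ℕ+, (∀ i j, i ≤ j → Fe (F j) (F i)) ∧
    ¬ ∃ G, (∀ i, Fe G (F i)) ∧ ∀ H, (∀ i, Fe H (F i)) → Fe H G := by
  classical
  refine ⟨ch, fun i j hij B hB => ⟨{x | 2 ^ (j - i) * x ∈ B}, ?_,
    fun F hF => ⟨_, fun x hx => hF hx⟩⟩, fun ⟨G, h1, h2⟩ => ?_⟩
  · have : ∀ᶠ n in (hyperfilter ℕ : Filter ℕ), (2 : ℕ+) ^ (2 ^ n - i) ∈ B := hB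
    show ∀ᶠ n in (hyperfilter ℕ : Filter ℕ), (2 : ℕ+) ^ (j - i) * 2 ^ (2 ^ n - j) ∈ B
    filter_upwards [this, big j] with n a b
    rwa [← pow_add, show j - i + (2 ^ n - j) = 2 ^ n - i by omega]
  have h3 : ∀ B ∈ G, ∀ x : ℕ+, ∃ y ∈ B, x < y := by
    intro B hB x
    obtain ⟨A, hA, h⟩ := h2 (pure (2 ^ (x : ℕ))) (fun i C hC => ⟨{2 ^ (x : ℕ)}, rfl, fun F hF => by
      have : ∀ᶠ n in (hyperfilter ℕ : Filter ℕ), (2 : ℕ+) ^ (2 ^ n - i) ∈ C := hC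
      obtain ⟨n, a, b⟩ := (this.and (big (i + x))).exists
      refine ⟨2 ^ (2 ^ n - i - x), fun y hy => ?_⟩
      rw [show y = 2 ^ (x : ℕ) from hF hy, ← pow_add, show 2 ^ n - i - x + x = 2 ^ n - i by omega]
      exact a⟩) B hB
    obtain ⟨k, hk⟩ := h {2 ^ (x : ℕ)} (by simpa using hA)
    refine ⟨_, hk _ (Finset.mem_singleton_self _), lt_of_lt_of_le ?_ (le_mul_of_one_le_left' one_le)⟩
    exact_mod_cast (x : ℕ).lt_two_pow_self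
  have h4 : ∀ i, ∃ A ∈ G, FeSet A {x | ∃ n, 2 ^ i * x = 2 ^ 2 ^ n} := fun i => h1 i _ (by
    show ∀ᶠ n in (hyperfilter ℕ : Filter ℕ), ∃ m, (2 : ℕ+) ^ i * 2 ^ (2 ^ n - i) = 2 ^ 2 ^ m
    filter_upwards [big i] with n a
    exact ⟨n, by rw [← pow_add, Nat.add_sub_cancel' a]⟩)
  choose A hA h4 using h4
  obtain ⟨x, hx, -⟩ := h3 _ (hA 0) 1
  obtain ⟨y, hy, hxy⟩ := h3 _ (hA 0) x
  obtain ⟨k, hk⟩ := h4 0 {x, y} (by simp [insert_subset_iff, hx, hy])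
  obtain ⟨u, hu, -⟩ := h3 _ (inter_mem (hA 0) (hA k)) 1
  obtain ⟨v, hv, huv⟩ := h3 _ (inter_mem (hA 0) (hA k)) u
  obtain ⟨l, hl⟩ := h4 0 {x, y, u, v} (by simp [insert_subset_iff, hx, hy, hu.1, hv.1])
  obtain ⟨m, hm⟩ := h4 k {u, v} (by simp [insert_subset_iff, hu.2, hv.2])
  simp only [Finset.mem_insert, Finset.mem_singleton, forall_eq_or_imp, forall_eq,
    mem_ofPred_eq, ← mul_assoc] at hk hl hm
  obtain ⟨⟨_, a1⟩, _, a2⟩ := hk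
  obtain ⟨⟨_, b1⟩, ⟨_, b2⟩, ⟨_, b3⟩, _, b4⟩ := hl
  obtain ⟨⟨_, c1⟩, _, c2⟩ := hm
  have e := (pair hxy a1 a2 b1 b2).trans (pair huv b3 b4 c1 c2)
  have e' : (k : ℕ) = 2 ^ (k : ℕ) * m := by simpa using congrArg PNat.val e
  have := (k : ℕ).lt_two_pow_self
  have := m.pos
  nlinarith

end Pool.Agent.Results.MP_26c4ab_lc.No
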